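import Mathlib

namespace Pool.Agent.Lib.MP_24547c_co

open Set Polynomial

open Classical in
/-- The characteristic polynomial `p(M; X) = ∑_{A ⊆ E} (-1)^{|A|} X^{r(M) - r(A)}`. -/
noncomputable def charPoly {α : Type} [Fintype α] (M : Matroid α) : ℤ[X] :=
  ∑ A ∈ Finset.univ.filter (fun A : Finset α => (↑A : Set α) ⊆ M.E),
    (-1) ^ A.card * X ^ (M.eRank.toNat - (M.eRk (↑A : Set α)).toNat)

/-- The critical exponent `c(M; q) = min {j : p(M; q^j) > 0}`, which is `⊤` if there is no such `j`. -/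
noncomputable def critExp {α : Type} [Fintype α] (M : Matroid α) (q : ℕ) : ℕ∞ :=
  ⨅ (j : ℕ) (_ : 0 < (charPoly M).eval ((q : ℤ) ^ j)), (j : ℕ∞)

/-- No loops and no parallel pairs. -/
def IsSimple {α : Type} (M : Matroid α) : Prop :=
  ∀ e ∈ M.E, ∀ f ∈ M.E, M.Indep {e, f}

/-- `M` is representable over the field `F`. -/
def Representable (F : Type) [Field F] {α : Type} (M : Matroid α) : Prop :=
  ∃ (n : ℕ) (φ : α → (Fin n → F)), ∀ I ⊆ M.E, (M.Indep I ↔ LinearIndepOn F φ I)

/-- A `k`-block over the finite field `F`. -/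
def IsBlock (F : Type) [Field F] [Fintype F] (k : ℕ) {α : Type} [Fintype α] (M : Matroid α) :
    Prop :=
  IsSimple M ∧ Representable F M ∧ (k : ℕ∞) < critExp M (Fintype.card F)

/-- A tangential `k`-block over the finite field `F`. -/
def IsTangentialBlock (F : Type) [Field F] [Fintype F] (k : ℕ) {α : Type} [Fintype α]
    (M : Matroid α) : Prop :=
  IsBlock F k M ∧ ∀ N : Matroid α, N.IsStrictMinor M → IsSimple N → ¬ IsBlock F k N

/-- A modular flat. -/
def IsModularFlat {α : Type} (M : Matroid α) (A : Set α) : Prop :=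
  M.IsFlat A ∧ ∀ B, M.IsFlat B → M.eRk A + M.eRk B = M.eRk (A ∪ B) + M.eRk (A ∩ B)

/-- A supersolvable matroid: a chain of modular flats, one of each rank `0, …, r(M)`. -/
def IsSupersolvable {α : Type} (M : Matroid α) : Prop :=
  ∃ A : ℕ → Set α, (∀ i : ℕ, (i : ℕ∞) ≤ M.eRank → IsModularFlat M (A i) ∧ M.eRk (A i) = i) ∧
    ∀ i : ℕ, ((i + 1 : ℕ) : ℕ∞) ≤ M.eRank → A i ⊆ A (i + 1)

/-- `K` is the cycle matroid of the graph `G`: its elements are the edges of `G`, and a set of edges
is independent exactly when it contains no cycle. -/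
def IsCycleMatroid {V : Type} (G : SimpleGraph V) (K : Matroid (Sym2 V)) : Prop :=
  K.E = G.edgeSet ∧ ∀ I ⊆ G.edgeSet, (K.Indep I ↔ (SimpleGraph.fromEdgeSet I).IsAcyclic)

/-- `N` is a quotient of `K`. -/
def IsQuotient {β : Type} (N K : Matroid β) : Prop :=
  N.E = K.E ∧ ∀ A, N.IsFlat A → K.IsFlat A

/-- `M` is isomorphic to the simplification of `N`, that is, to the restriction of `N` to a maximal
subset `S` of the ground set on which `N` is simple. -/
def IsoToSimplification {α β : Type} (M : Matroid α) (N : Matroid β) : Prop :=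
  ∃ S : Set β, Maximal (fun T => T ⊆ N.E ∧ IsSimple (N.restrict T)) S ∧
    ∃ f : α → β, BijOn f M.E S ∧ ∀ I ⊆ M.E, (M.Indep I ↔ (N.restrict S).Indep (f '' I))

/-- `M` is isomorphic to the simplification of a quotient of the cycle matroid of the complete graph
on `q ^ k + 1` vertices. -/
def IsNormal (q k : ℕ) {α : Type} (M : Matroid α) : Prop :=
  ∃ K N : Matroid (Sym2 (Fin (q ^ k + 1))),
    IsCycleMatroid (⊤ : SimpleGraph (Fin (q ^ k + 1))) K ∧ IsQuotient N K ∧ IsoToSimplification M N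

end Pool.Agent.Lib.MP_24547c_co
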