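import Pool.Agent.Lib.MP_24547c_co.Rep

namespace Pool.Agent.Lib.MP_24547c_co

open Set Submodule Module SimpleGraph

section vec
variable {α F V : Type} [Field F] [AddCommGroup V] [Module F V]

/-- Vector matroids exist. -/
lemma exists_rep [Finite α] (E : Set α) (φ : α → V) :
    ∃ K : Matroid α, K.E = E ∧ IsRep F K φ := by
  classical
  refine ⟨(IndepMatroid.ofFinite (E := E) E.toFinite (fun I => I ⊆ E ∧ LinearIndepOn F φ I)
    ⟨empty_subset _, linearIndepOn_empty _ _⟩
    (fun I J hJ hIJ => ⟨hIJ.trans hJ.1, hJ.2.mono hIJ⟩) ?_ (fun I hI => hI.1)).matroid, rfl, ?_⟩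
  · intro I J hI hJ hlt
    by_contra hcon
    push Not at hcon
    have hsub : span F (φ '' J) ≤ span F (φ '' I) := by
      rw [span_le]
      rintro _ ⟨e, he, rfl⟩
      by_cases heI : e ∈ I
      · exact subset_span (mem_image_of_mem _ heI)
      · by_contra hne
        exact hcon e he heI (insert_subset (hJ.1 he) hI.1) (hI.2.insert hne)
    have : Fintype (φ '' I) := (I.toFinite.image φ).fintype
    have : Fintype (φ '' J) := (J.toFinite.image φ).fintype
    have hfin : Module.Finite F (span F (φ '' I)) :=
      Module.Finite.span_of_finite F (I.toFinite.image φ)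
    have h1 := Submodule.finrank_mono hsub
    rw [finrank_span_set_eq_card hI.2.id_image, finrank_span_set_eq_card hJ.2.id_image,
      ← Set.ncard_eq_toFinset_card', ← Set.ncard_eq_toFinset_card',
      hI.2.injOn.ncard_image, hJ.2.injOn.ncard_image] at h1
    omega
  · intro I hI
    have hI' : I ⊆ E := hI
    simp [hI']

end vec

section graph
variable {V : Type} [Fintype V] [DecidableEq V]

/-- The incidence vector over `GF(2)` of an edge. -/
def inc (e : Sym2 V) : V → ZMod 2 :=
  Sym2.lift ⟨fun u v => Pi.single u 1 + Pi.single v 1, fun _ _ => add_comm _ _⟩ e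

omit [Fintype V] in
@[simp] lemma inc_mk (u v : V) : inc s(u, v) = Pi.single u 1 + Pi.single v 1 := rfl

omit [Fintype V] in
lemma walk_sum {G : SimpleGraph V} {u v : V} (p : G.Walk u v) :
    (p.edges.map inc).sum = Pi.single u 1 + Pi.single v 1 := by
  have h2 : ∀ x : V → ZMod 2, x + x = 0 := fun x => by
    ext i; exact CharTwo.add_self_eq_zero _
  induction p with
  | nil => simp [h2]
  | cons h p ih =>
    rename_i a b c
    simp only [Walk.edges_cons, List.map_cons, List.sum_cons, ih, inc_mk]
    rw [add_assoc, ← add_assoc (Pi.single b 1), h2, zero_add]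

/-- If the incidence vector of `uv` is in the span of those of `X`, then `u` and `v` are joined in
`X`. -/
lemma reachable_of_mem_span {X : Set (Sym2 V)} {u v : V}
    (h : inc s(u, v) ∈ span (ZMod 2) (inc '' X)) : (fromEdgeSet X).Reachable u v := by
  classical
  by_contra hr
  let f : (V → ZMod 2) →ₗ[ZMod 2] ZMod 2 :=
    ∑ w ∈ Finset.univ.filter (fun w => (fromEdgeSet X).Reachable u w), LinearMap.proj w
  have hf : ∀ a, f (Pi.single a 1) = if (fromEdgeSet X).Reachable u a then 1 else 0 := by
    intro a
    simp [f, Pi.single_apply]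
  have hle : span (ZMod 2) (inc '' X) ≤ LinearMap.ker f := by
    rw [span_le]
    rintro _ ⟨e, he, rfl⟩
    induction e using Sym2.ind with
    | h a b =>
      simp only [inc_mk, SetLike.mem_coe, LinearMap.mem_ker, map_add, hf]
      by_cases hab : a = b
      · subst hab; exact CharTwo.add_self_eq_zero _
      · have hadj : (fromEdgeSet X).Adj a b := by simp [he, hab]
        have : (fromEdgeSet X).Reachable u a ↔ (fromEdgeSet X).Reachable u b :=
          ⟨fun h => h.trans hadj.reachable, fun h => h.trans hadj.symm.reachable⟩
        simp only [this]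
        exact CharTwo.add_self_eq_zero _
  have := hle h
  simp [hf, hr] at this

lemma linearIndepOn_inc_iff {I : Set (Sym2 V)} (hI : I ⊆ (⊤ : SimpleGraph V).edgeSet) :
    LinearIndepOn (ZMod 2) inc I ↔ (fromEdgeSet I).IsAcyclic := by
  classical
  constructor
  · intro hl u c hc
    have hsum := walk_sum c
    have h2 : (Pi.single u 1 + Pi.single u 1 : V → ZMod 2) = 0 := by
      ext i; exact CharTwo.add_self_eq_zero _
    rw [h2, ← List.sum_toFinset _ hc.isTrail.edges_nodup] at hsum
    have hsub : (c.edges.toFinset : Set (Sym2 V)) ⊆ I := by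
      intro e he
      have := c.edges_subset_edgeSet (List.mem_toFinset.1 he)
      rw [edgeSet_fromEdgeSet] at this
      exact this.1
    have hne : c.edges ≠ [] := by
      intro h0
      have := hc.three_le_length
      rw [← Walk.length_edges, h0] at this
      simp at this
    obtain ⟨e, he⟩ := List.exists_mem_of_ne_nil _ hne
    have := linearIndepOn_iff'.1 hl c.edges.toFinset (fun _ => 1) hsub (by simpa using hsum) e
      (List.mem_toFinset.2 he)
    exact one_ne_zero this
  · intro ha
    rw [linearIndepOn_iff_notMem_span]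
    intro e he hmem
    induction e using Sym2.ind with
    | h a b =>
      have hab : a ≠ b := by simpa using hI he
      have hbr := isAcyclic_iff_forall_isBridge.1 ha (e := s(a, b)) (by simp [he, hab])
      rw [isBridge_iff] at hbr
      apply hbr
      refine (reachable_of_mem_span hmem).mono ?_
      intro x y hxy
      simp only [fromEdgeSet_adj, mem_sdiff, mem_singleton_iff] at hxy
      simp [hxy.1.1, hxy.1.2, hxy.2]

/-- The cycle matroid of a complete graph exists, and every triangle-closed set of edges is one of
its flats. -/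
lemma exists_cycleMatroid : ∃ K : Matroid (Sym2 V), IsCycleMatroid (⊤ : SimpleGraph V) K ∧
    ∀ A ⊆ (⊤ : SimpleGraph V).edgeSet,
      (∀ u v w : V, u ≠ w → s(u, v) ∈ A → s(v, w) ∈ A → s(u, w) ∈ A) → K.IsFlat A := by
  obtain ⟨K, hE, hK⟩ := exists_rep (F := ZMod 2) (⊤ : SimpleGraph V).edgeSet (inc (V := V))
  refine ⟨K, ⟨hE, fun I hI => ?_⟩, fun A hA htri => ?_⟩
  · rw [hK I (hE ▸ hI), linearIndepOn_inc_iff hI]
  · rw [Matroid.isFlat_iff_closure_eq]
    refine subset_antisymm ?_ (K.subset_closure A (hE ▸ hA))
    intro e he
    have heE : e ∈ K.E := Matroid.mem_ground_of_mem_closure he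
    rw [hK.mem_closure (hE ▸ hA) heE] at he
    induction e using Sym2.ind with
    | h a b =>
      have hab : a ≠ b := by simpa [hE] using heE
      obtain ⟨p⟩ := reachable_of_mem_span he
      have : ∀ {x y : V} (p : (fromEdgeSet A).Walk x y), x ≠ y → s(x, y) ∈ A := by
        intro x y p
        induction p with
        | nil => simp
        | cons h p ih =>
          rename_i x z y
          intro hxy
          have hxz : s(x, z) ∈ A := ((fromEdgeSet_adj _).1 h).1
          by_cases hzy : z = y
          · exact hzy ▸ hxz
          · exact htri x z y hxy hxz (ih hzy)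
      exact this p hab

end graph

end Pool.Agent.Lib.MP_24547c_co
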