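import Pool.Agent.Lib.MP_24547c_co.Graph

namespace Pool.Agent.Lib.MP_24547c_co

open Set Submodule Module

section normal
variable {α F V W : Type} [Field F] [AddCommGroup V] [Module F V] {M : Matroid α} {φ : α → V}
  [Fintype W] [DecidableEq W]

/-- If the points of `M` are exactly the directions determined by a family of vectors indexed by
`W`, then `M` is the simplification of a quotient of the cycle matroid of the complete graph
on `W`. -/
lemma normal_of_directions (h : IsRep F M φ) (hs : IsSimple M) (hne : M.E.Nonempty) (x : W → V)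
    (ha : ∀ u v, u ≠ v → ∃ z ∈ M.E, ∃ c : F, c ≠ 0 ∧ φ z = c • (x u - x v))
    (hb : ∀ z ∈ M.E, ∃ u v, u ≠ v ∧ ∃ c : F, c ≠ 0 ∧ φ z = c • (x u - x v)) :
    ∃ K N : Matroid (Sym2 W),
      IsCycleMatroid (⊤ : SimpleGraph W) K ∧ IsQuotient N K ∧ IsoToSimplification M N := by
  classical
  obtain ⟨K, hK, hflat⟩ := exists_cycleMatroid (V := W)
  set E := (⊤ : SimpleGraph W).edgeSet with hE
  have h1 : ∀ e : Sym2 W, ∃ z ∈ M.E, ∀ u v, u ≠ v → e = s(u, v) →
      ∃ c : F, c ≠ 0 ∧ φ z = c • (x u - x v) := by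
    intro e
    induction e using Sym2.ind with
    | h a b =>
      by_cases hab : a = b
      · obtain ⟨z, hz⟩ := hne
        refine ⟨z, hz, fun u v huv he => ?_⟩
        subst hab
        exfalso
        rw [Sym2.eq_iff] at he
        rcases he with ⟨rfl, rfl⟩ | ⟨rfl, rfl⟩ <;> exact huv rfl
      · obtain ⟨z, hz, c, hc, hφ⟩ := ha a b hab
        refine ⟨z, hz, fun u v huv he => ?_⟩
        rw [Sym2.eq_iff] at he
        rcases he with ⟨rfl, rfl⟩ | ⟨rfl, rfl⟩
        · exact ⟨c, hc, hφ⟩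
        · exact ⟨-c, neg_ne_zero.2 hc, by rw [hφ, neg_smul, ← smul_neg, neg_sub]⟩
  choose π hπE hπ using h1
  have h2 : ∀ z : α, ∃ e : Sym2 W, z ∈ M.E → e ∈ E ∧ π e = z := by
    intro z
    by_cases hz : z ∈ M.E
    · obtain ⟨u, v, huv, c, hc, hφ⟩ := hb z hz
      obtain ⟨d, hd, hφ'⟩ := hπ s(u, v) u v huv rfl
      refine ⟨s(u, v), fun _ => ⟨by simpa [hE] using huv, ?_⟩⟩
      refine h.eq_of_smul hs (hπE _) hz (c := d * c⁻¹) ?_
      rw [hφ, hφ', smul_smul, inv_mul_cancel_right₀ hc]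
    · obtain ⟨z', hz'⟩ := hne
      obtain ⟨u, v, -⟩ := hb z' hz'
      exact ⟨s(u, v), fun h => absurd h hz⟩
  choose σ hσ using h2
  have hN : IsRep F (M.comapOn E π) (φ ∘ π) := by
    intro I hI
    have hI' : I ⊆ E := hI
    rw [Matroid.comapOn_indep_iff, h _ (by rintro _ ⟨e, -, rfl⟩; exact hπE e)]
    constructor
    · rintro ⟨h1, h2, -⟩
      exact h1.comp_of_image h2
    · intro hl
      exact ⟨hl.image_of_comp _ _, hl.injOn.of_comp, hI'⟩
  refine ⟨K, M.comapOn E π, hK, ⟨hK.1.symm, fun A hA => ?_⟩, σ '' M.E, ⟨⟨?_, ?_⟩, ?_⟩, σ,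
    ⟨mapsTo_image _ _, ?_, surjOn_image _ _⟩, ?_⟩
  · have hAE : A ⊆ E := hA.subset_ground
    refine hflat A hAE fun u v w huw huv hvw => ?_
    have huv' : u ≠ v := by simpa [hE] using hAE huv
    have hvw' : v ≠ w := by simpa [hE] using hAE hvw
    rw [← hA.closure, hN.mem_closure hAE (by simpa [hE] using huw)]
    obtain ⟨c1, hc1, e1⟩ := hπ _ u v huv' rfl
    obtain ⟨c2, hc2, e2⟩ := hπ _ v w hvw' rfl
    obtain ⟨c3, hc3, e3⟩ := hπ _ u w huw rfl
    have m1 : φ (π s(u, v)) ∈ span F ((φ ∘ π) '' A) := subset_span ⟨_, huv, rfl⟩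
    have m2 : φ (π s(v, w)) ∈ span F ((φ ∘ π) '' A) := subset_span ⟨_, hvw, rfl⟩
    rw [e1, smul_mem_iff _ hc1] at m1
    rw [e2, smul_mem_iff _ hc2] at m2
    rw [Function.comp_apply, e3, smul_mem_iff _ hc3]
    simpa using add_mem m1 m2
  · rintro _ ⟨z, hz, rfl⟩
    exact (hσ z hz).1
  · rintro _ ⟨z, hz, rfl⟩ _ ⟨w, hw, rfl⟩
    rw [Matroid.restrict_indep_iff, Matroid.comapOn_indep_iff]
    refine ⟨⟨?_, ?_, ?_⟩, ?_⟩
    · rw [image_pair, (hσ z hz).2, (hσ w hw).2]
      exact hs z hz w hw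
    · rintro a (rfl | rfl) b (rfl | rfl) hab
      · rfl
      · rw [(hσ z hz).2, (hσ w hw).2] at hab; rw [hab]
      · rw [(hσ z hz).2, (hσ w hw).2] at hab; rw [hab]
      · rfl
    · exact insert_subset (hσ z hz).1 (singleton_subset_iff.2 (hσ w hw).1)
    · exact insert_subset ⟨z, hz, rfl⟩ (singleton_subset_iff.2 ⟨w, hw, rfl⟩)
  · rintro T ⟨hTE, hT⟩ hST e he
    have h3 : σ (π e) ∈ T := hST ⟨π e, hπE e, rfl⟩
    have h4 := hT e he _ h3
    rw [Matroid.restrict_indep_iff, Matroid.comapOn_indep_iff] at h4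
    have h5 : e = σ (π e) := h4.1.2.1 (by simp) (by simp) (hσ _ (hπE e)).2.symm
    exact ⟨π e, hπE e, h5.symm⟩
  · intro z hz w hw hzw
    rw [← (hσ z hz).2, ← (hσ w hw).2, hzw]
  · intro I hI
    have h3 : π '' (σ '' I) = I := by
      rw [image_image]
      exact (image_congr fun z hz => (hσ z (hI hz)).2).trans (image_id I)
    rw [Matroid.restrict_indep_iff, Matroid.comapOn_indep_iff, h3]
    refine ⟨fun hi => ⟨⟨hi, ?_, ?_⟩, image_mono hI⟩, fun hi => hi.1.1⟩
    · rintro _ ⟨z, hz, rfl⟩ _ ⟨w, hw, rfl⟩ hab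
      rw [(hσ z (hI hz)).2, (hσ w (hI hw)).2] at hab
      rw [hab]
    · rintro _ ⟨z, hz, rfl⟩
      exact (hσ z (hI hz)).1

end normal

section main
variable {α F : Type} [Field F] [Fintype F] [Fintype α] {M : Matroid α} {k : ℕ}

lemma IsTangentialBlock.exists_map (hT : IsTangentialBlock F k M) {n : ℕ} {φ : α → (Fin n → F)}
    (h : IsRep F M φ) {R : Set α} (hR : R ⊆ M.E) (hne : R ≠ M.E) :
    ∃ f : (Fin n → F) →ₗ[F] (Fin k → F), ∀ e ∈ R, f (φ e) ≠ 0 := by
  by_contra hcon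
  refine hT.2 _ (restrict_isStrictMinor hR hne) (hT.1.1.restrict hR)
    ⟨hT.1.1.restrict hR, ⟨n, φ, h.restrict hR⟩, ?_⟩
  exact ((h.restrict hR).lt_critExp_iff k).2 hcon

/-- A tangential block with a modular hyperplane is normal. -/
theorem normal_of_modular_hyperplane (hT : IsTangentialBlock F k M) {H : Set α}
    (hH : IsModularFlat M H) (hr : M.eRk H + 1 = M.eRank) : IsNormal (Fintype.card F) k M := by
  classical
  obtain ⟨⟨hs, ⟨n, φ, h⟩, hcrit⟩, -⟩ := id hT
  replace h : IsRep F M φ := h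
  have hblock := (h.lt_critExp_iff k).1 hcrit
  have hHE : H ⊆ M.E := hH.1.subset_ground
  have hfin : ∀ X, M.eRk X ≠ ⊤ := fun X =>
    ne_top_of_le_ne_top (X.toFinite.encard_lt_top.ne) (M.eRk_le_encard X)
  have hHne : H ≠ M.E := by
    rintro rfl
    rw [M.eRank_def] at hr
    have := hfin M.E
    lift M.eRk M.E to ℕ using this with m
    have : m + 1 = m := by exact_mod_cast hr
    omega
  have hnot : ∀ x ∈ M.E, x ∉ H → φ x ∉ span F (φ '' H) := by
    intro x hx hxH hm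
    rw [← h.mem_closure hHE hx, hH.1.closure] at hm
    exact hxH hm
  -- secants meet `H`
  have hsec : ∀ x ∈ M.E, ∀ y ∈ M.E, x ≠ y → ∃ z ∈ H, ∃ a b : F, φ z = a • φ x + b • φ y := by
    intro x hx y hy hxy
    have h1 := hH.2 (M.closure {x, y}) (M.isFlat_closure _)
    have h2 : M.eRk (M.closure {x, y}) = 2 := by
      rw [M.eRk_closure_eq, (hs x hx y hy).eRk_eq_encard, encard_pair hxy]
    have h3 : (H ∩ M.closure {x, y}).Nonempty := by
      by_contra h0
      rw [not_nonempty_iff_eq_empty] at h0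
      rw [h0, h2, M.eRk_empty, add_zero] at h1
      have h4 := M.eRk_le_eRank (H ∪ M.closure {x, y})
      rw [← h1, ← hr] at h4
      have := hfin H
      lift M.eRk H to ℕ using this with m
      have : m + 2 ≤ m + 1 := by exact_mod_cast h4
      omega
    obtain ⟨z, hzH, hz⟩ := h3
    rw [h.mem_closure (by simp [insert_subset_iff, hx, hy]) (hHE hzH), image_pair,
      mem_span_pair] at hz
    obtain ⟨a, b, hab⟩ := hz
    exact ⟨z, hzH, a, b, hab.symm⟩
  obtain ⟨x₀, hx₀E, hx₀H⟩ := exists_of_ssubset (hHE.ssubset_of_ne hHne)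
  obtain ⟨l, hl0, hlH⟩ := Submodule.exists_le_ker_of_notMem (hnot x₀ hx₀E hx₀H)
  have hlH' : ∀ z ∈ H, l (φ z) = 0 := fun z hz => hlH (subset_span (mem_image_of_mem _ hz))
  have hlP : ∀ y ∈ M.E, y ∉ H → l (φ y) ≠ 0 := by
    intro y hy hyH hly
    by_cases hxy : x₀ = y
    · exact hl0 (hxy ▸ hly)
    obtain ⟨z, hz, a, b, hab⟩ := hsec x₀ hx₀E y hy hxy
    have h1 := congrArg l hab
    rw [hlH' z hz, map_add, map_smul, map_smul, hly, smul_zero, add_zero, smul_eq_mul] at h1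
    have ha : a = 0 := (mul_eq_zero.1 h1.symm).resolve_right hl0
    rw [ha, zero_smul, zero_add] at hab
    exact hyH (h.eq_of_smul hs (hHE hz) hy hab ▸ hz)
  let P := {y : α // y ∈ M.E ∧ y ∉ H}
  let v : P → (Fin n → F) := fun y => (l (φ y))⁻¹ • φ y
  have hv : ∀ y : P, φ y = l (φ y) • v y := fun y => by
    simp only [v, smul_smul]
    rw [mul_inv_cancel₀ (hlP y y.2.1 y.2.2), one_smul]
  have hlv : ∀ y : P, l (v y) = 1 := fun y => by
    simp only [v, map_smul, smul_eq_mul]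
    rw [inv_mul_cancel₀ (hlP y y.2.1 y.2.2)]
  clear_value v
  have hdir : ∀ x y : P, x ≠ y → ∃ z ∈ H, ∃ c : F, c ≠ 0 ∧ φ z = c • (v x - v y) := by
    intro x y hxy
    obtain ⟨z, hz, a, b, hab⟩ := hsec x x.2.1 y y.2.1 (fun h => hxy (Subtype.ext h))
    replace hab : φ z = (a * l (φ x)) • v x + (b * l (φ y)) • v y := by
      rw [mul_smul, mul_smul, ← hv x, ← hv y]; exact hab
    have h1 := congrArg l hab
    rw [hlH' z hz, map_add, map_smul, map_smul, hlv, hlv, smul_eq_mul, smul_eq_mul, mul_one,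
      mul_one] at h1
    have h2 : b * l (φ y) = -(a * l (φ x)) := by linear_combination -h1
    rw [h2, neg_smul, ← sub_eq_add_neg, ← smul_sub] at hab
    refine ⟨z, hz, _, fun h0 => ?_, hab⟩
    rw [h0, zero_smul] at hab
    exact h.ne_zero hs (hHE hz) hab
  have hinj : ∀ f : (Fin n → F) →ₗ[F] (Fin k → F),
      (∀ x y : P, x ≠ y → ∀ z ∈ H, ∀ c : F, c ≠ 0 → φ z = c • (v x - v y) → f (φ z) ≠ 0) →
      Function.Injective (fun y : P => f (v y)) := by
    intro f hf x y hxy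
    by_contra hne
    obtain ⟨z, hz, c, hc, hφ⟩ := hdir x y hne
    apply hf x y hne z hz c hc hφ
    have hxy' : f (v x) = f (v y) := hxy
    rw [hφ, map_smul, map_sub, hxy', sub_self, smul_zero]
  -- the complement of `H` has `q ^ k` points
  have hcard : Fintype.card P = Fintype.card F ^ k := by
    obtain ⟨f, hf⟩ := hT.exists_map h hHE hHne
    have h1 := hinj f fun _ _ _ z hz _ _ _ => hf z hz
    have h2 : Function.Surjective (fun y : P => f (v y)) := by
      intro t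
      by_contra hcon
      push Not at hcon
      refine hblock ⟨f - l.smulRight t, fun e he h0 => ?_⟩
      by_cases heH : e ∈ H
      · apply hf e heH
        simpa [hlH' e heH] using h0
      · apply hcon ⟨e, he, heH⟩
        have h3 : f (φ e) = l (φ e) • t := by simpa [sub_eq_zero] using h0
        have h4 := congrArg f (hv ⟨e, he, heH⟩)
        rw [map_smul, h3] at h4
        exact (smul_right_injective _ (hlP e he heH) h4).symm
    rw [Fintype.card_of_bijective ⟨h1, h2⟩]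
    simp
  -- every point of `H` is on a secant
  have hall : ∀ z ∈ H, ∃ x y : P, x ≠ y ∧ ∃ c : F, c ≠ 0 ∧ φ z = c • (v x - v y) := by
    intro z hz
    by_contra hcon
    obtain ⟨f, hf⟩ := hT.exists_map h (R := M.E \ {z}) sdiff_subset
      (fun h0 => by have := h0 ▸ hHE hz; simp at this)
    have h1 := hinj f fun x y hxy w hw c hc hφ =>
      hf w ⟨hHE hw, fun hwz => hcon ⟨x, y, hxy, c, hc, (mem_singleton_iff.1 hwz) ▸ hφ⟩⟩
    have h2 : Function.Surjective (fun y : P => f (v y)) :=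
      ((Fintype.bijective_iff_injective_and_card _).2 ⟨h1, by simp [hcard]⟩).2
    obtain ⟨y, hy⟩ := h2 0
    apply hf y ⟨y.2.1, fun h0 => y.2.2 ((mem_singleton_iff.1 h0) ▸ hz)⟩
    have hy' : f (v y) = 0 := hy
    rw [hv y, map_smul, hy', smul_zero]
  obtain ⟨ε⟩ : Nonempty (Fin (Fintype.card F ^ k + 1) ≃ Option P) :=
    ⟨Fintype.equivOfCardEq (by simp [hcard])⟩
  let x : Option P → (Fin n → F) := fun o => o.elim 0 v
  refine normal_of_directions h hs ⟨x₀, hx₀E⟩ (fun i => x (ε i)) ?_ ?_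
  · intro i j hij
    have hij' : ε i ≠ ε j := fun h => hij (ε.injective h)
    generalize ε i = a at hij' ⊢
    generalize ε j = b at hij' ⊢
    match a, b, hij' with
    | none, none, h0 => exact absurd rfl h0
    | none, some b, _ =>
      exact ⟨b, b.2.1, -l (φ b), neg_ne_zero.2 (hlP b b.2.1 b.2.2), by simpa [x] using hv b⟩
    | some a, none, _ => exact ⟨a, a.2.1, l (φ a), hlP a a.2.1 a.2.2, by simpa [x] using hv a⟩
    | some a, some b, h0 =>
      obtain ⟨z, hz, c, hc, hφ⟩ := hdir a b (fun h => h0 (h ▸ rfl))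
      exact ⟨z, hHE hz, c, hc, by simpa [x] using hφ⟩
  · intro z hz
    by_cases hzH : z ∈ H
    · obtain ⟨a, b, hab, c, hc, hφ⟩ := hall z hzH
      refine ⟨ε.symm (some a), ε.symm (some b), by simpa using hab, c, hc, ?_⟩
      simpa [x] using hφ
    · refine ⟨ε.symm (some ⟨z, hz, hzH⟩), ε.symm none, by simp, l (φ z), hlP z hz hzH, ?_⟩
      simpa [x] using hv ⟨z, hz, hzH⟩

/-- A supersolvable tangential block is normal. -/
theorem normal_of_supersolvable (hT : IsTangentialBlock F k M) (hS : IsSupersolvable M) :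
    IsNormal (Fintype.card F) k M := by
  obtain ⟨A, hA, -⟩ := hS
  obtain ⟨⟨hs, ⟨n, φ, h⟩, hcrit⟩, -⟩ := id hT
  replace h : IsRep F M φ := h
  have hblock := (h.lt_critExp_iff k).1 hcrit
  have hne : M.E.Nonempty := by
    by_contra h0
    rw [not_nonempty_iff_eq_empty] at h0
    exact hblock ⟨0, by simp [h0]⟩
  obtain ⟨e, he⟩ := hne
  have h1 : 1 ≤ M.eRank := by
    have := (hs e he e he).encard_le_eRank
    simpa using this
  have hfin : M.eRank ≠ ⊤ :=
    ne_top_of_le_ne_top (M.E.toFinite.encard_lt_top.ne) M.eRank_le_encard_ground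
  obtain ⟨r, hr⟩ := ENat.ne_top_iff_exists.1 hfin
  rw [← hr] at h1
  have h2 : 1 ≤ r := by exact_mod_cast h1
  obtain ⟨hm, hrk⟩ := hA (r - 1) (by rw [← hr]; exact_mod_cast Nat.sub_le r 1)
  refine normal_of_modular_hyperplane hT hm ?_
  rw [hrk, ← hr]
  exact_mod_cast Nat.sub_add_cancel h2

end main

end Pool.Agent.Lib.MP_24547c_co
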