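import Pool.Agent.Lib.MP_24547c_co.Defs

namespace Pool.Agent.Lib.MP_24547c_co

open Set Polynomial Submodule Module

section rep
variable {α F V : Type} [Field F] [AddCommGroup V] [Module F V] {M : Matroid α} {φ : α → V}

/-- `φ` represents `M`. -/
def IsRep (F : Type) [Field F] {α V : Type} [AddCommGroup V] [Module F V] (M : Matroid α)
    (φ : α → V) : Prop :=
  ∀ I ⊆ M.E, (M.Indep I ↔ LinearIndepOn F φ I)

lemma IsRep.mem_closure_indep (h : IsRep F M φ) {I : Set α} (hI : M.Indep I) {e : α}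
    (he : e ∈ M.E) : e ∈ M.closure I ↔ φ e ∈ span F (φ '' I) := by
  by_cases heI : e ∈ I
  · exact ⟨fun _ => subset_span (mem_image_of_mem _ heI),
      fun _ => M.mem_closure_of_mem heI hI.subset_ground⟩
  · have hl := (h I hI.subset_ground).1 hI
    rw [← not_iff_not, hI.notMem_closure_iff_of_notMem heI he,
      h _ (insert_subset he hI.subset_ground), linearIndepOn_insert heI]
    simp [hl]

lemma IsRep.span_basis (h : IsRep F M φ) {I X : Set α} (hI : M.IsBasis I X) :
    span F (φ '' I) = span F (φ '' X) := by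
  refine le_antisymm (span_mono (image_mono hI.subset)) (span_le.2 ?_)
  rintro _ ⟨x, hx, rfl⟩
  exact (h.mem_closure_indep hI.indep (hI.subset_ground hx)).1 (hI.subset_closure hx)

lemma IsRep.mem_closure (h : IsRep F M φ) {X : Set α} (hX : X ⊆ M.E) {e : α}
    (he : e ∈ M.E) : e ∈ M.closure X ↔ φ e ∈ span F (φ '' X) := by
  obtain ⟨I, hI⟩ := M.exists_isBasis X hX
  rw [← hI.closure_eq_closure, h.mem_closure_indep hI.indep he, h.span_basis hI]

lemma IsRep.eRk_eq [Finite α] (h : IsRep F M φ) {X : Set α} (hX : X ⊆ M.E) :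
    M.eRk X = (finrank F (span F (φ '' X)) : ℕ) := by
  classical
  obtain ⟨I, hI⟩ := M.exists_isBasis X hX
  have hl := (h I hI.indep.subset_ground).1 hI.indep
  have : Fintype (φ '' I) := (I.toFinite.image φ).fintype
  rw [hI.eRk_eq_encard, ← h.span_basis hI, finrank_span_set_eq_card hl.id_image,
    ← hl.injOn.encard_image, Set.encard_eq_coe_toFinset_card]

lemma IsRep.restrict (h : IsRep F M φ) {R : Set α} (hR : R ⊆ M.E) : IsRep F (M.restrict R) φ := by
  intro I hI
  have hI' : I ⊆ R := hI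
  rw [Matroid.restrict_indep_iff, h I (hI'.trans hR)]
  simp [hI']

lemma IsSimple.restrict (h : IsSimple M) {R : Set α} (hR : R ⊆ M.E) : IsSimple (M.restrict R) := by
  intro e he f hf
  have he' : e ∈ R := he
  have hf' : f ∈ R := hf
  rw [Matroid.restrict_indep_iff]
  exact ⟨h e (hR he') f (hR hf'), by simp [insert_subset_iff, he', hf']⟩

lemma IsRep.ne_zero (h : IsRep F M φ) (hs : IsSimple M) {e : α} (he : e ∈ M.E) : φ e ≠ 0 := by
  have := (h {e, e} (by simp [he])).1 (hs e he e he)
  exact this.ne_zero (by simp)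

lemma IsRep.eq_of_smul (h : IsRep F M φ) (hs : IsSimple M) {e f : α} (he : e ∈ M.E)
    (hf : f ∈ M.E) {c : F} (hc : φ e = c • φ f) : e = f := by
  by_contra hne
  have := (h {e, f} (by simp [insert_subset_iff, he, hf])).1 (hs e he f hf)
  have h2 := this.notMem_span_of_insert (by simpa using hne)
  apply h2
  rw [hc]
  exact smul_mem _ _ (subset_span (by simp))

lemma restrict_isStrictMinor {R : Set α} (hR : R ⊆ M.E) (hne : R ≠ M.E) :
    (M.restrict R).IsStrictMinor M := by
  rw [Matroid.isStrictMinor_iff_isMinor_ssubset]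
  refine ⟨⟨∅, M.E \ R, ?_⟩, hR.ssubset_of_ne hne⟩
  rw [Matroid.contract_empty, Matroid.delete_compl hR]

end rep

section critical
variable {α F : Type} [Field F] [Fintype F] [Fintype α] {M : Matroid α} {n : ℕ}
  {φ : α → (Fin n → F)}

lemma card_vanishing (j : ℕ) (W : Submodule F (Fin n → F)) :
    Nat.card {f : (Fin n → F) →ₗ[F] (Fin j → F) // W ≤ LinearMap.ker f} =
      (Fintype.card F ^ j) ^ (n - finrank F W) := by
  have e : {f : (Fin n → F) →ₗ[F] (Fin j → F) // W ≤ LinearMap.ker f} ≃
      (((Fin n → F) ⧸ W) →ₗ[F] (Fin j → F)) :=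
    { toFun := fun f => W.liftQ f.1 f.2
      invFun := fun g => ⟨g.comp W.mkQ, fun x hx => by
        simp [(Submodule.Quotient.mk_eq_zero W).2 hx]⟩
      left_inv := fun f => by ext; simp
      right_inv := fun g => by ext; simp }
  rw [Nat.card_congr e, Module.natCard_eq_pow_finrank (K := F), Module.finrank_linearMap]
  have h1 := W.finrank_quotient_add_finrank
  simp only [finrank_fintype_fun_eq_card, Fintype.card_fin] at h1 ⊢
  have h2 : finrank F ((Fin n → F) ⧸ W) = n - finrank F W := by omega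
  rw [h2, Nat.card_eq_fintype_card, ← pow_mul, mul_comm]

open Classical in
/-- The critical theorem of Crapo and Rota, counting form. -/
lemma IsRep.count (h : IsRep F M φ) (j : ℕ) :
    ((Nat.card {f : (Fin n → F) →ₗ[F] (Fin j → F) // ∀ e ∈ M.E, f (φ e) ≠ 0} : ℕ) : ℤ) =
      ((Fintype.card F : ℤ) ^ j) ^ (n - M.eRank.toNat) *
        (charPoly M).eval ((Fintype.card F : ℤ) ^ j) := by
  have : Finite ((Fin n → F) →ₗ[F] (Fin j → F)) := Module.finite_of_finite F
  have : Fintype ((Fin n → F) →ₗ[F] (Fin j → F)) := Fintype.ofFinite _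
  set E : Finset α := Finset.univ.filter (· ∈ M.E) with hE
  have key : ∀ f : (Fin n → F) →ₗ[F] (Fin j → F),
      (if ∀ e ∈ M.E, f (φ e) ≠ 0 then (1 : ℤ) else 0) =
        ∑ A ∈ E.powerset, (-1) ^ A.card * (if ∀ e ∈ A, f (φ e) = 0 then (1 : ℤ) else 0) := by
    intro f
    have h1 : (if ∀ e ∈ M.E, f (φ e) ≠ 0 then (1 : ℤ) else 0) =
        ∏ e ∈ E, (1 - (if f (φ e) = 0 then (1 : ℤ) else 0)) := by
      split_ifs with hf
      · refine (Finset.prod_eq_one fun e he => ?_).symm
        have : e ∈ M.E := by simpa [hE] using he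
        simp [hf e this]
      · push Not at hf
        obtain ⟨e, he, hfe⟩ := hf
        refine (Finset.prod_eq_zero (i := e) (by simpa [hE] using he) ?_).symm
        simp [hfe]
    rw [h1, Finset.prod_sub]
    refine Finset.sum_congr rfl fun A hA => ?_
    simp only [Finset.prod_const_one, mul_one]
    congr 1
    rw [Finset.prod_boole]
    congr
  have hr : M.eRank = (finrank F (span F (φ '' M.E)) : ℕ) := by
    rw [M.eRank_def, h.eRk_eq subset_rfl]
  have hrn : finrank F (span F (φ '' M.E)) ≤ n := by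
    simpa using (span F (φ '' M.E)).finrank_le
  rw [Nat.card_eq_fintype_card, Fintype.card_subtype, Finset.card_filter]
  push_cast
  rw [Finset.sum_congr rfl fun f _ => key f, Finset.sum_comm, charPoly, eval_finsetSum,
    Finset.mul_sum]
  refine Finset.sum_congr (by ext A; simp [hE, Finset.subset_iff, Set.subset_def]) fun A hA => ?_
  have hAE : (A : Set α) ⊆ M.E := by simpa using hA
  rw [← Finset.mul_sum]
  have h3 : (∑ f : (Fin n → F) →ₗ[F] (Fin j → F),
      (if ∀ e ∈ A, f (φ e) = 0 then (1 : ℤ) else 0)) =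
      ((Fintype.card F : ℤ) ^ j) ^ (n - finrank F (span F (φ '' A))) := by
    have := card_vanishing (F := F) j (span F (φ '' A))
    rw [Nat.card_eq_fintype_card, Fintype.card_subtype, Finset.card_filter] at this
    have h4 := congrArg (fun x : ℕ => (x : ℤ)) this
    push_cast at h4
    rw [← h4]
    refine Finset.sum_congr rfl fun f _ => ?_
    congr 1
    simp [span_le, Set.subset_def]
  have hle : finrank F (span F (φ '' A)) ≤ finrank F (span F (φ '' M.E)) :=
    Submodule.finrank_mono (span_mono (image_mono hAE))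
  rw [h3, hr, h.eRk_eq hAE]
  simp only [ENat.toNat_natCast, eval_mul, eval_pow, eval_neg, eval_one, eval_X]
  rw [mul_left_comm, ← pow_add]
  congr 2
  omega

lemma IsRep.eval_pos_iff (h : IsRep F M φ) (j : ℕ) :
    0 < (charPoly M).eval ((Fintype.card F : ℤ) ^ j) ↔
      ∃ f : (Fin n → F) →ₗ[F] (Fin j → F), ∀ e ∈ M.E, f (φ e) ≠ 0 := by
  have : Finite ((Fin n → F) →ₗ[F] (Fin j → F)) := Module.finite_of_finite F
  have hq : (0 : ℤ) < ((Fintype.card F : ℤ) ^ j) ^ (n - M.eRank.toNat) := by
    have : 0 < Fintype.card F := Fintype.card_pos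
    positivity
  rw [← mul_pos_iff_of_pos_left hq, ← h.count j, Nat.cast_pos, Nat.card_pos_iff]
  constructor
  · rintro ⟨⟨f, hf⟩, -⟩
    exact ⟨f, hf⟩
  · rintro ⟨f, hf⟩
    exact ⟨⟨⟨f, hf⟩⟩, inferInstance⟩

lemma IsRep.lt_critExp_iff (h : IsRep F M φ) (k : ℕ) :
    (k : ℕ∞) < critExp M (Fintype.card F) ↔
      ¬ ∃ f : (Fin n → F) →ₗ[F] (Fin k → F), ∀ e ∈ M.E, f (φ e) ≠ 0 := by
  constructor
  · intro hk hf
    have : critExp M (Fintype.card F) ≤ k :=
      iInf₂_le (f := fun (j : ℕ) (_ : 0 < (charPoly M).eval ((Fintype.card F : ℤ) ^ j)) =>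
        (j : ℕ∞)) k ((h.eval_pos_iff k).2 hf)
    exact absurd hk (not_lt.2 this)
  · intro hf
    have : ((k + 1 : ℕ) : ℕ∞) ≤ critExp M (Fintype.card F) := by
      refine le_iInf₂ fun j hj => ?_
      obtain ⟨g, hg⟩ := (h.eval_pos_iff j).1 hj
      rw [Nat.cast_le]
      by_contra hjk
      have hjk' : j ≤ k := by omega
      obtain ⟨ι, hι⟩ : ∃ ι : (Fin j → F) →ₗ[F] (Fin k → F), Function.Injective ι := by
        refine ⟨Function.ExtendByZero.linearMap F (Fin.castLE hjk'), ?_⟩
        intro x y hxy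
        ext i
        have := congrFun hxy (Fin.castLE hjk' i)
        simpa [(Fin.castLE_injective hjk').extend_apply] using this
      exact hf ⟨ι.comp g, fun e he h0 => hg e he (hι (by simpa using h0))⟩
    exact lt_of_lt_of_le (by exact_mod_cast Nat.lt_succ_self k) this

end critical

end Pool.Agent.Lib.MP_24547c_co
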